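import Mathlib
import Pool.Agent.Lib.MP_417c68_gt_D.Csq

/-!
# Compact standard quotients of products

`G = ∏ G_j` is a closed self-adjoint matrix group which is the product of its parts in the classes
`j` of blocks, `H = ∏ H_j` is a closed subgroup, reductive in `G`, which is a product in the same
way.  No condition on the real ranks.
-/

namespace Pool.Agent.Results.MP_417c68_gt.Products

open Pool.Agent.MP_417c68_gt

variable {n : ℕ} {N : Fin n → ℕ}

/-- `G/H = ∏ G_j/H_j` has a reductive subgroup `L ⊆ G` acting properly and cocompactly if and only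
if every `G_j/H_j` has one; with Borel's theorem on lattices: `G/H` has a compact standard quotient
if and only if every `G_j/H_j` has one. -/
theorem result {m : ℕ} {c : Fin n → Fin m} {G H : Subgroup (Alg N)ˣ} (hG : SelfAdj G)
    (hGs : ∀ j, SplitAt G (cls c j)) (hH : Red G H) (hHs : ∀ j, SplitAt H (cls c j)) :
    (Std G H ↔ ∀ j, Std (Fac G c j) (Fac H c j)) ∧
    ((∀ L, Red G L → HasLat L) → (CSQ G H ↔ ∀ j, CSQ (Fac G c j) (Fac H c j))) :=
  products hG hGs hH hHs

end Pool.Agent.Results.MP_417c68_gt.Products
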