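import Mathlib
import Pool.Agent.Lib.MP_417c68_gt.Main

/-!
# Compact standard quotients for groups with factors of real rank at most one

`G ⊆ GL(N₁, ℝ) × ⋯ × GL(Nₙ, ℝ)` is a closed self-adjoint group all of whose blocks have real
rank at most one, `H` is a closed subgroup which is reductive in `G`.  The theorem decides which
`G/H` admit a compact standard quotient.
-/

namespace Pool.Agent.Results.MP_417c68_gt.RankOneFactors

open Pool.Agent.MP_417c68_gt

variable {n : ℕ} {N : Fin n → ℕ}

/-- `L` is reductive in `G` and acts properly and cocompactly on `G/H` -/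
def Cmp (G H L : Subgroup (Alg N)ˣ) : Prop := Red G L ∧ ProperAct G H L ∧ Cocompact G H L

/-- `L` has a torsion-free cocompact lattice -/
def HasLat (L : Subgroup (Alg N)ˣ) : Prop :=
  ∃ Γ ≤ L, DTF Γ ∧ ∃ D : Set (Alg N)ˣ, IsCompact D ∧ D ⊆ L ∧ ∀ l ∈ L, ∃ γ ∈ Γ, ∃ d ∈ D, l = γ * d

/-- Let `G` be self-adjoint with all blocks of real rank at most one and let `H` be reductive in
`G`.  A compact standard quotient of `G/H` gives the criterion `Crit` (for some set `I` of blocks
the projection of `H` to the blocks in `I` has compact kernel and cocompact image in the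
projection of `G`); `Crit` is equivalent to its infinitesimal form and to the existence of a
reductive subgroup `L` of `G` acting properly and cocompactly on `G/H`; such an `L` can be taken
to be the subgroup of all elements of `G` which are trivial in the blocks `i ∈ I`; and if the
reductive subgroups of `G` have torsion-free cocompact lattices (Borel), then `G/H` admits a
compact standard quotient if and only if `Crit` holds. -/
theorem result {G H : Subgroup (Alg N)ˣ} (hG : SelfAdj G) (hR : RankOne G) (hH : Red G H) :
    (CSQ G H → Crit G H) ∧ (InfCrit G H ↔ Crit G H) ∧ (Crit G H ↔ ∃ L, Cmp G H L) ∧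
    (Crit G H → ∃ I, Cmp G H (LI G I)) ∧
    ((∀ L, Red G L → HasLat L) → (CSQ G H ↔ Crit G H)) :=
  classification hG hR hH

end Pool.Agent.Results.MP_417c68_gt.RankOneFactors
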