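import Mathlib
import Pool.Agent.Lib.MP_417c68_gt_S.MainN

/-!
# Compact standard quotients and the simple factors

`GG N` is the group `∏ i, GL(N i, ℝ)`, `G` is a closed self-adjoint subgroup with connected maximal
compact subgroup `K = KK G` (its orthogonal elements), of any real rank, `𝔭(G)` is the direct sum of
pairwise commuting Lie triples `P j` (for instance the noncompact simple ideals and the centre),
`H` is a closed subgroup, reductive in `G` (not necessarily compatible with this decomposition).
-/

namespace Pool.Agent.Results.MP_417c68_gt.SimpleFactors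

open Pool.Agent.MP417S

/-- First part: if some reductive subgroup of `G` acts properly and cocompactly on `G/H`, then a
split one does; it also acts properly and cocompactly on `G/H'` for a split `H'`, so that every
`P j` is the direct sum of `P j ∩ 𝔭(H')` and `Ad(k) (P j ∩ 𝔭(L))`, for all `k ∈ K`.
Second part: if all factors outside a set `A` of abelian factors are rigid, the property is
equivalent to `CritP`: for some set `J` of indices outside `A` the projection of `𝔭(H)` to the sum
of the `P j`, `j ∈ J`, is onto and the projection to the sum of the `P j`, `j ∈ J ∪ A`, is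
injective.  Third part: factors of real rank one, factors with restricted root system of type `A₂`
and factors `P j` such that in every factorization `K = A B` one of `A`, `B` acts irreducibly on
`P j` are rigid, and also the factors `SL(d, ℝ)` of any size `d`: all symmetric matrices of trace `0`
of one block. -/
theorem result {n m : ℕ} {N : Fin n → ℕ} {G : Subgroup (GG N)}
    {P : Fin m → Submodule ℝ (MM N)} (hG : SelfAdj G) (hK : IsPreconnected (KK G))
    (hP : Ideals G P) :
    (∀ H ≤ G, ∀ a ∈ G, SelfAdj (cj a H) →
      (Std G H ↔ ∃ L H', Split G P L ∧ Split G P H' ∧ PC G H L ∧ PC G H' L ∧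
        ∀ j, CplP G (P j) H' L) ∧
      ∀ A : Finset (Fin m), (∀ j ∈ A, ∀ X ∈ P j, ∀ Y ∈ P j, X * Y = Y * X) →
        (∀ j ∉ A, RigP G (P j)) → (Std G H ↔ CritP G P A (cj a H))) ∧
    ∀ j, Rk1P (P j) ∨ TwoAP G (P j) ∨ IndK G (P j) ∨ SLP (P j) → RigP G (P j) :=
  ⟨fun _ hHG _ ha hH => ⟨p_split hG hK hP hHG ha hH, fun A hA hR =>
    p_crit hG hK hP hHG ha hH A hA hR⟩, fun j h => n_rig hG hK hP j h⟩

end Pool.Agent.Results.MP_417c68_gt.SimpleFactors
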