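import Mathlib
import Pool.Agent.Lib.MP_417c68_gt_S.Main

/-!
# Compact standard quotients and transitive actions

`GG N` is the group `∏ i, GL(N i, ℝ)`, `G` is a closed self-adjoint subgroup with maximal compact
subgroup `K = KK G` (its orthogonal elements), `H` is a closed subgroup, reductive in `G`.
-/

namespace Pool.Agent.Results.MP_417c68_gt.Transitivity

open Pool.Agent.MP417S

/-- Some reductive subgroup of `G` acts properly and cocompactly on `G/H` if and only if `H` is
cocompact in a subgroup `H'`, reductive in `G`, such that some subgroup `L'`, reductive in `G`, has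
only finitely many orbits in `G/H'`, all with compact isotropy groups.  For self-adjoint `H`, `L`
the action of `L` on `G/H` is proper and cocompact if and only if, for all `r ∈ R`,
`𝔭(G) = 𝔭(H) ⊕ Ad(r) 𝔭(L)` and `[𝔭(G), 𝔭(G)]` is the sum of the normalizers of `𝔭(H)` and of
`Ad(r) 𝔭(L)`.  If `K` is connected then `G = L' H'` and `L'` may be chosen split over commuting
ideals `P j` of `𝔭(G)`; the action of `L` on `G/H` is proper and cocompact if and only if
`𝔭(G) = 𝔭(H) ⊕ 𝔭(L)` and `K` is the product of the normalizers of `𝔭(L)` and of `𝔭(H)`.  Under the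
conclusion of Borel's theorem, `G/H` has a compact standard quotient if and only if some reductive
`L` acts properly and cocompactly on `G/H`. -/
theorem result {n m : ℕ} {N : Fin n → ℕ} {G : Subgroup (GG N)} (hG : SelfAdj G) :
    (∀ H, Red G H → (Std G H ↔ ∃ H' L', Red G H' ∧ Red G L' ∧ CocptIn H H' ∧ FinOrb G L' H')) ∧
    (∀ R, Repr G R → ∀ H ≤ G, ∀ L ≤ G, SelfAdj H → SelfAdj L →
      (PC G H L ↔ ∀ r ∈ R, DirSum G H L r ∧ SumN G H L r)) ∧
    (IsPreconnected (KK G) →
      (∀ P : Fin m → Submodule ℝ (MM N), Ideals G P → ∀ H, Red G H →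
        (Std G H ↔ ∃ L' H', Split G P L' ∧ Red G H' ∧ CocptIn H H' ∧ Fct G L' H')) ∧
      ∀ H ≤ G, ∀ L ≤ G, SelfAdj H → SelfAdj L → (PC G H L ↔ DirSum G H L 1 ∧ KFct G H L)) ∧
    ((∀ L, Red G L → HasLat L) → ∀ H, CSQ G H ↔ Std G H) :=
  ⟨t_orb hG, fun _ hR _ hHG _ hLG hH hL => t_alg hG hR hHG hLG hH hL,
    fun hK => ⟨fun _ hP => t_split hG hK hP, fun _ hHG _ hLG hH hL =>
      t_kfct hG hK hHG hLG hH hL⟩, t_csq⟩

end Pool.Agent.Results.MP_417c68_gt.Transitivity
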